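import Pool.Agent.K1H70.FP.Stm
import Pool.Agent.W715.HS.OC

set_option autoImplicit false

/-! Project FP: `S_OCX`. -/

namespace Pool.Agent.K1H78.FP

open Finset

section
variable {G X E : Type} [CommGroup G] [MulAction G X] [Field E] (Fr : Equiv.Perm X)

theorem pow_smul_comm (hFr : ∀ (g : G) (x : X), Fr (g • x) = g • Fr x) (m : ℕ) (g : G) (x : X) :
    (Fr ^ m) (g • x) = g • (Fr ^ m) x := by
  induction m with
  | zero => rfl
  | succ m ih => rw [pow_succ', Equiv.Perm.mul_apply, Equiv.Perm.mul_apply, ih, hFr]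

theorem stab_smul (g : G) (x : X) : MulAction.stabilizer G (g • x) = MulAction.stabilizer G x := by
  ext s
  rw [MulAction.mem_stabilizer_iff, MulAction.mem_stabilizer_iff, smul_comm]
  exact ⟨fun h => MulAction.injective g h, fun h => by rw [h]⟩

theorem stab_Fr (hFr : ∀ (g : G) (x : X), Fr (g • x) = g • Fr x) (x : X) :
    MulAction.stabilizer G (Fr x) = MulAction.stabilizer G x := by
  ext s
  rw [MulAction.mem_stabilizer_iff, MulAction.mem_stabilizer_iff, ← hFr]
  exact ⟨fun h => Fr.injective h, fun h => by rw [h]⟩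

theorem image_orbit (hFr : ∀ (g : G) (x : X), Fr (g • x) = g • Fr x) (x : X) :
    Fr '' MulAction.orbit G x = MulAction.orbit G (Fr x) := by
  ext y
  constructor
  · rintro ⟨_, ⟨g, rfl⟩, rfl⟩
    exact ⟨g, (hFr g x).symm⟩
  · rintro ⟨g, rfl⟩
    exact ⟨g • x, ⟨g, rfl⟩, hFr g x⟩

theorem iter_orbit (hFr : ∀ (g : G) (x : X), Fr (g • x) = g • Fr x) (m : ℕ) (x : X) :
    (fun O : Set X => Fr '' O)^[m] (MulAction.orbit G x) = MulAction.orbit G ((Fr ^ m) x) := by
  induction m with
  | zero => rfl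
  | succ m ih =>
    rw [Function.iterate_succ_apply', ih, pow_succ', Equiv.Perm.mul_apply]
    exact image_orbit Fr hFr _

theorem pow_mul_smul (hFr : ∀ (g : G) (x : X), Fr (g • x) = g • Fr x) (d c : ℕ) (h : G) (x : X)
    (hx : (Fr ^ d) x = h • x) : (Fr ^ (d * c)) x = h ^ c • x := by
  induction c with
  | zero => simp
  | succ c ih =>
    rw [mul_add, mul_one, pow_add, Equiv.Perm.mul_apply, hx, pow_smul_comm Fr hFr, ih, smul_smul,
      pow_succ']

/-- the orbits of exact period `d` with character value `μ ^ i` -/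
def YY (ψ : G →* Eˣ) (μ : E) (d i : ℕ) : Set (Set X) :=
  {O | ∃ x : X, O = MulAction.orbit G x ∧ MulAction.stabilizer G x ≤ ψ.ker ∧
    Function.minimalPeriod (fun O : Set X => Fr '' O) O = d ∧
    ∃ h : G, (Fr ^ d) x = h • x ∧ (ψ h : E) = μ ^ i}

theorem YY_finite [Fintype G] (hfin : ∀ m : ℕ, 1 ≤ m → ∀ g : G, {x : X | (Fr ^ m) x = g • x}.Finite)
    (ψ : G →* Eˣ) (μ : E) (d i : ℕ) (hd : 1 ≤ d) : (YY Fr ψ μ d i).Finite := by
  have h1 : (⋃ g : G, {x : X | (Fr ^ d) x = g • x}).Finite := Set.finite_iUnion (hfin d hd)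
  refine (h1.image (fun x => MulAction.orbit G x)).subset ?_
  rintro O ⟨x, rfl, -, -, h, hh, -⟩
  exact ⟨x, Set.mem_iUnion.2 ⟨h, hh⟩, rfl⟩

theorem YY_dvd [Fintype G] (hFr : ∀ (g : G) (x : X), Fr (g • x) = g • Fr x)
    (hfin : ∀ m : ℕ, 1 ≤ m → ∀ g : G, {x : X | (Fr ^ m) x = g • x}.Finite)
    (ψ : G →* Eˣ) (μ : E) (d i : ℕ) (hd : 1 ≤ d) : d ∣ (YY Fr ψ μ d i).ncard := by
  have hf := YY_finite Fr hfin ψ μ d i hd
  rw [Set.ncard_eq_toFinset_card _ hf]
  refine Pool.Agent.W715.HS.OC.dvd_card_of_minimalPeriod (fun O : Set X => Fr '' O)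
    (Set.image_injective.2 Fr.injective) d hd _ _ rfl ?_ ?_
  · intro O hO
    rw [Set.Finite.mem_toFinset] at hO ⊢
    obtain ⟨x, rfl, h2, h3, h, h4, h5⟩ := hO
    refine ⟨Fr x, image_orbit Fr hFr x, by rwa [stab_Fr Fr hFr], ?_, h, ?_, h5⟩
    · have hp : Function.minimalPeriod (fun O : Set X => Fr '' O) (MulAction.orbit G x) ≠ 0 := by
        omega
      have := Function.minimalPeriod_apply (f := fun O : Set X => Fr '' O)
        (x := MulAction.orbit G x)
        (Function.minimalPeriod_pos_iff_mem_periodicPts.1 (Nat.pos_of_ne_zero hp))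
      exact this.trans h3
    · rw [← Equiv.Perm.mul_apply, ← pow_succ, pow_succ', Equiv.Perm.mul_apply, h4, hFr]
  · intro O hO
    rw [Set.Finite.mem_toFinset] at hO
    exact hO.choose_spec.2.2.1

open Classical in
/-- the value at an orbit -/
theorem key_value [Fintype G] (hFr : ∀ (g : G) (x : X), Fr (g • x) = g • Fr x) (N : ℕ) (μ : E)
    (hN : 0 < N) (hμ : IsPrimitiveRoot μ N) (ψ : G →* Eˣ) (hψ : ∀ g : G, (ψ g : E) ^ N = 1)
    (m : ℕ) (hm : 1 ≤ m) (x : X) (hx : MulAction.stabilizer G x ≤ ψ.ker) (h : G)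
    (hh : (Fr ^ m) x = h • x) : ∃ d i : ℕ, d ∣ m ∧ (ψ h : E) = μ ^ (i * (m / d)) ∧
    ∀ ν : E, (∑ d ∈ m.divisors, ∑ i ∈ range N,
      if MulAction.orbit G x ∈ YY Fr ψ μ d i then ν ^ (i * (m / d)) else 0) = ν ^ (i * (m / d)) := by
  have hone : ∀ s : G, s ∈ MulAction.stabilizer G x → ψ s = 1 := fun s hs => hx hs
  -- uniqueness of the character value
  have huniq : ∀ (g g' : G), g • x = g' • x → ψ g = ψ g' := by
    intro g g' hg
    have h1 : g'⁻¹ * g ∈ MulAction.stabilizer G x := by
      rw [MulAction.mem_stabilizer_iff, mul_smul, hg, inv_smul_smul]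
    have h2 := hone _ h1
    rw [map_mul, map_inv, inv_mul_eq_one] at h2
    exact h2.symm
  set fb : Set X → Set X := fun O => Fr '' O with hfb
  set d := Function.minimalPeriod fb (MulAction.orbit G x) with hd
  have hper : Function.IsPeriodicPt fb m (MulAction.orbit G x) := by
    change fb^[m] _ = _
    rw [iter_orbit Fr hFr, hh]
    exact MulAction.orbit_smul h x
  have hdm : d ∣ m := hper.minimalPeriod_dvd
  have hd0 : 0 < d := Nat.pos_of_dvd_of_pos hdm hm
  have hfix : fb^[d] (MulAction.orbit G x) = MulAction.orbit G x :=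
    Function.isPeriodicPt_minimalPeriod _ _
  rw [iter_orbit Fr hFr] at hfix
  obtain ⟨h0, hh0⟩ : ∃ h0 : G, h0 • x = (Fr ^ d) x := by
    have : (Fr ^ d) x ∈ MulAction.orbit G x := by
      rw [← hfix]
      exact MulAction.mem_orbit_self _
    exact this
  have : NeZero N := ⟨hN.ne'⟩
  obtain ⟨i, hi, hzi⟩ := hμ.eq_pow_of_pow_eq_one (hψ h0)
  have hval : (ψ h : E) = μ ^ (i * (m / d)) := by
    have h1 := pow_mul_smul Fr hFr d (m / d) h0 x hh0.symm
    rw [Nat.mul_div_cancel' hdm, hh] at h1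
    rw [huniq _ _ h1, map_pow, Units.val_pow_eq_pow_val, ← hzi, ← pow_mul]
  refine ⟨d, i, hdm, hval, fun ν => ?_⟩
  have hmem : MulAction.orbit G x ∈ YY Fr ψ μ d i :=
    ⟨x, rfl, hx, rfl, h0, hh0.symm, hzi.symm⟩
  have hmem' : ∀ d' i', i' < N → MulAction.orbit G x ∈ YY Fr ψ μ d' i' → d' = d ∧ i' = i := by
    rintro d' i' hi' ⟨x', hx', h2, h3, h', h4, h5⟩
    have hdd : d' = d := h3.symm
    refine ⟨hdd, ?_⟩
    subst hdd
    have hxx : x' ∈ MulAction.orbit G x := by
      rw [hx']
      exact MulAction.mem_orbit_self _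
    obtain ⟨g, rfl⟩ := hxx
    change (Fr ^ _) (g • x) = h' • (g • x) at h4
    rw [pow_smul_comm Fr hFr, smul_comm h' g] at h4
    have h6 : h0 • x = h' • x := by
      rw [hh0]
      exact MulAction.injective g h4
    have h7 := huniq _ _ h6
    rw [← h7, ← hzi] at h5
    exact (hμ.pow_inj hi hi' h5).symm
  rw [Finset.sum_eq_single d, Finset.sum_eq_single i, if_pos hmem]
  · intro j hj hji
    rw [if_neg]
    intro h3
    exact hji (hmem' d j (mem_range.mp hj) h3).2
  · intro h
    exact absurd (mem_range.mpr hi) h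
  · intro d' _ hd'
    apply Finset.sum_eq_zero
    intro j hj
    rw [if_neg]
    intro h3
    exact hd' (hmem' d' j (mem_range.mp hj) h3).1
  · intro h
    exact absurd (Nat.mem_divisors.mpr ⟨hdm, by omega⟩) h

end

theorem t_OCX : Pool.Agent.K1H70.FP.S_OCX := by
  classical
  intro G X E _ _ _ _ _ Fr hFr hfin N μ hN hμ ψ hψ
  refine ⟨fun d i => (YY Fr ψ μ d i).ncard / d, ?_⟩
  intro m hm
  have hfinU : (⋃ g : G, {x : X | (Fr ^ m) x = g • x}).Finite := Set.finite_iUnion (hfin m hm)
  set FX : Finset X := hfinU.toFinset with hFX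
  have hFXm : ∀ x, x ∈ FX ↔ ∃ g : G, (Fr ^ m) x = g • x := by
    intro x
    rw [hFX, Set.Finite.mem_toFinset, Set.mem_iUnion]
    rfl
  set FX' : Finset X := FX.filter (fun x => MulAction.stabilizer G x ≤ ψ.ker) with hFX'
  set OS : Finset (Set X) := FX'.image (fun x => MulAction.orbit G x) with hOS
  -- the count of the orbits in `YY d i`
  have hcount : ∀ d i, d ∈ m.divisors →
      (OS.filter (fun O => O ∈ YY Fr ψ μ d i)).card = (YY Fr ψ μ d i).ncard := by
    intro d i hd
    have hdm := Nat.dvd_of_mem_divisors hd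
    rw [← Set.ncard_coe_finset]
    congr 1
    ext O
    rw [Finset.coe_filter, Set.mem_ofPred_eq]
    constructor
    · exact fun h => h.2
    · intro h
      refine ⟨?_, h⟩
      obtain ⟨x, rfl, h2, h3, g, h4, h5⟩ := h
      rw [hOS, Finset.mem_image]
      refine ⟨x, ?_, rfl⟩
      rw [hFX', Finset.mem_filter, hFXm]
      refine ⟨⟨g ^ (m / d), ?_⟩, h2⟩
      have := pow_mul_smul Fr hFr d (m / d) g x h4
      rwa [Nat.mul_div_cancel' hdm] at this
  have hsumF : ∀ ν : E, (∑ O ∈ OS, ∑ d ∈ m.divisors, ∑ i ∈ range N,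
      if O ∈ YY Fr ψ μ d i then ν ^ (i * (m / d)) else 0) =
      Pool.Agent.W528.HS.orbSum N ν (fun d i => (YY Fr ψ μ d i).ncard / d) m := by
    intro ν
    rw [Finset.sum_comm]
    unfold Pool.Agent.W528.HS.orbSum
    apply Finset.sum_congr rfl
    intro d hd
    have hd0 : 0 < d := Nat.pos_of_mem_divisors hd
    rw [Finset.sum_comm, Finset.mul_sum]
    apply Finset.sum_congr rfl
    intro i _
    rw [← Finset.sum_filter, Finset.sum_const, hcount d i hd, nsmul_eq_mul, ← mul_assoc,
      ← Nat.cast_mul, Nat.mul_div_cancel' (YY_dvd Fr hFr hfin ψ μ d i hd0)]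
  -- representatives
  have hrep : ∀ O ∈ OS, ∃ x ∈ FX', MulAction.orbit G x = O := fun O hO => by
    rw [hOS, Finset.mem_image] at hO
    exact hO
  constructor
  · -- the first identity
    set val : X → E := fun x => ∑ g : G, if (Fr ^ m) x = g • x then (ψ g : E) else 0 with hval
    have hL : (∑ g : G, (ψ g : E) * ({x : X | (Fr ^ m) x = g • x}.ncard : E)) =
        ∑ x ∈ FX, val x := by
      rw [hval, Finset.sum_comm]
      apply Finset.sum_congr rfl
      intro g _
      rw [← Finset.sum_filter, Finset.sum_const, nsmul_eq_mul, mul_comm]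
      congr 2
      rw [← Set.ncard_coe_finset]
      congr 1
      ext x
      rw [Finset.coe_filter, Set.mem_ofPred_eq, Set.mem_ofPred_eq, hFXm]
      exact ⟨fun h => ⟨⟨g, h⟩, h⟩, fun h => h.2⟩
    have hz : ∀ x, ¬ MulAction.stabilizer G x ≤ ψ.ker → val x = 0 := by
      intro x hx
      obtain ⟨s, hs, hs1⟩ := SetLike.not_le_iff_exists.1 hx
      have hs2 : (ψ s : E) ≠ 1 := by
        intro h
        exact hs1 (MonoidHom.mem_ker.2 (Units.ext h))
      have h1 : val x = (ψ s : E) * val x := by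
        rw [hval]
        simp only [Finset.mul_sum]
        refine (Fintype.sum_equiv (Equiv.mulLeft s) _ _ fun g => ?_).symm
        rw [MulAction.mem_stabilizer_iff] at hs
        have h2 : (s * g) • x = g • x := by
          rw [mul_comm, mul_smul, hs]
        change (ψ s : E) * (if (Fr ^ m) x = g • x then (ψ g : E) else 0) =
          if (Fr ^ m) x = (s * g) • x then (ψ (s * g) : E) else 0
        rw [h2, map_mul, Units.val_mul, mul_ite, mul_zero]
      have h3 : (1 - (ψ s : E)) * val x = 0 := by rw [sub_mul, one_mul, ← h1, sub_self]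
      rcases mul_eq_zero.1 h3 with h4 | h4
      · exact absurd (sub_eq_zero.1 h4).symm hs2
      · exact h4
    have hsm : ∀ (g : G) (x : X), val (g • x) = val x := by
      intro g x
      rw [hval]
      apply Finset.sum_congr rfl
      intro g' _
      have : ((Fr ^ m) (g • x) = g' • (g • x)) ↔ ((Fr ^ m) x = g' • x) := by
        rw [pow_smul_comm Fr hFr, smul_comm g' g]
        exact ⟨fun h => MulAction.injective g h, fun h => by rw [h]⟩
      simp only [this]
    have hv : ∀ (x : X) (h : G), MulAction.stabilizer G x ≤ ψ.ker → (Fr ^ m) x = h • x →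
        val x = (ψ h : E) * (Nat.card (MulAction.stabilizer G x) : E) := by
      intro x h hx hh
      have h1 : ∀ g : G, (if (Fr ^ m) x = g • x then (ψ g : E) else 0) =
          if (Fr ^ m) x = g • x then (ψ h : E) else 0 := by
        intro g
        split_ifs with hg
        · have h2 : h⁻¹ * g ∈ MulAction.stabilizer G x := by
            rw [MulAction.mem_stabilizer_iff, mul_smul, ← hg, hh, inv_smul_smul]
          have h3 := MonoidHom.mem_ker.1 (hx h2)
          rw [map_mul, map_inv, inv_mul_eq_one] at h3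
          rw [h3]
        · rfl
      rw [hval]
      simp only [h1]
      rw [← Finset.sum_filter, Finset.sum_const, nsmul_eq_mul, mul_comm]
      congr 2
      rw [Nat.card_eq_fintype_card, ← Fintype.card_coe]
      refine Fintype.card_congr ⟨fun g => ⟨h⁻¹ * g.1, ?_⟩, fun s => ⟨h * s.1, ?_⟩, ?_, ?_⟩
      · have hg := (Finset.mem_filter.1 g.2).2
        rw [MulAction.mem_stabilizer_iff, mul_smul, ← hg, hh, inv_smul_smul]
      · rw [Finset.mem_filter]
        refine ⟨Finset.mem_univ _, ?_⟩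
        rw [mul_smul, MulAction.mem_stabilizer_iff.1 s.2, hh]
      · intro g
        exact Subtype.ext (mul_inv_cancel_left _ _)
      · intro s
        exact Subtype.ext (inv_mul_cancel_left _ _)
    rw [hL]
    have hA : (∑ x ∈ FX, val x) = ∑ x ∈ FX', val x := by
      rw [hFX', Finset.sum_filter]
      apply Finset.sum_congr rfl
      intro x _
      split_ifs with h1
      · rfl
      · exact hz x h1
    rw [hA, ← hsumF μ, Finset.mul_sum]
    symm
    rw [hOS]
    refine Finset.sum_image' _ ?_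
    intro x hx
    have hx' := hx
    rw [hFX', Finset.mem_filter, hFXm] at hx
    obtain ⟨⟨h, hh⟩, hx2⟩ := hx
    obtain ⟨d, i, -, h2, h3⟩ := key_value Fr hFr N μ hN hμ ψ hψ m hm x hx2 h hh
    rw [h3 μ, ← h2]
    have h4 : ∀ y ∈ FX'.filter (fun y => MulAction.orbit G y = MulAction.orbit G x),
        val y = val x := by
      intro y hy
      rw [Finset.mem_filter] at hy
      have : y ∈ MulAction.orbit G x := by
        rw [← hy.2]
        exact MulAction.mem_orbit_self _
      obtain ⟨g, rfl⟩ := this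
      exact hsm g x
    rw [Finset.sum_congr rfl h4, Finset.sum_const, nsmul_eq_mul]
    have h5 : (FX'.filter (fun y => MulAction.orbit G y = MulAction.orbit G x)).card =
        Nat.card (MulAction.orbit G x) := by
      rw [Nat.card_coe_set_eq, ← Set.ncard_coe_finset]
      congr 1
      ext y
      rw [Finset.coe_filter, Set.mem_ofPred_eq]
      constructor
      · intro hy
        rw [← hy.2]
        exact MulAction.mem_orbit_self _
      · intro hy
        refine ⟨?_, MulAction.orbit_eq_iff.2 hy⟩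
        obtain ⟨g, rfl⟩ := hy
        rw [hFX', Finset.mem_filter, hFXm]
        refine ⟨⟨h, ?_⟩, ?_⟩
        · change (Fr ^ m) (g • x) = h • (g • x)
          rw [pow_smul_comm Fr hFr, hh, smul_comm]
        · change MulAction.stabilizer G (g • x) ≤ _
          rwa [stab_smul]
    have h6 : Nat.card (MulAction.orbit G x) * Nat.card (MulAction.stabilizer G x) =
        Fintype.card G := by
      rw [← Nat.card_prod, Nat.card_congr (MulAction.orbitProdStabilizerEquivGroup G x),
        Nat.card_eq_fintype_card]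
    rw [h5, hv x h hx2 hh, ← h6, Nat.cast_mul]
    ring
  · -- the second identity
    rw [← hsumF 1]
    have h1 : ∀ O ∈ OS, (∑ d ∈ m.divisors, ∑ i ∈ range N,
        if O ∈ YY Fr ψ μ d i then (1 : E) ^ (i * (m / d)) else 0) = 1 := by
      intro O hO
      obtain ⟨x, hx, rfl⟩ := hrep O hO
      rw [hFX', Finset.mem_filter, hFXm] at hx
      obtain ⟨⟨h, hh⟩, hx2⟩ := hx
      obtain ⟨d, i, -, -, h3⟩ := key_value Fr hFr N μ hN hμ ψ hψ m hm x hx2 h hh
      rw [h3 1, one_pow]
    rw [Finset.sum_congr rfl h1, Finset.sum_const, nsmul_eq_mul, mul_one]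
    congr 1
    unfold Pool.Agent.K1H70.FP.orbN
    rw [← Set.ncard_coe_finset]
    congr 1
    ext O
    rw [Set.mem_ofPred_eq, Finset.mem_coe, hOS, Finset.mem_image]
    constructor
    · rintro ⟨x, rfl, ⟨g, hg⟩, h3⟩
      refine ⟨x, ?_, rfl⟩
      rw [hFX', Finset.mem_filter, hFXm]
      exact ⟨⟨g, hg.symm⟩, h3⟩
    · rintro ⟨x, hx, rfl⟩
      rw [hFX', Finset.mem_filter, hFXm] at hx
      obtain ⟨⟨g, hg⟩, h3⟩ := hx
      exact ⟨x, rfl, ⟨g, hg.symm⟩, h3⟩

end Pool.Agent.K1H78.FP
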